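import Mathlib

/-
For every `c` there are two real central arrangements, generic in codimension `c`, whose filtered
Varchenko-Gelfand algebras over every commutative ring of characteristic two are isomorphic, while
their oriented matroids are not isomorphic.
-/

namespace Pool.Agent.Results.MP_157dc7_co.CharTwoGeneric

open Set

/-- A real central arrangement in `ℝ^κ` (the functions `κ → ℝ`), with hyperplanes indexed by `ι`,
where `ι` and `κ` are finite: it is given by linear forms `α_i ≠ 0` whose kernels are pairwise
different. -/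
structure Arrangement (ι κ : Type) [Fintype ι] [Fintype κ] where
  form : ι → ((κ → ℝ) →ₗ[ℝ] ℝ)
  form_ne_zero : ∀ i, form i ≠ 0
  ker_ne : ∀ i j, i ≠ j → LinearMap.ker (form i) ≠ LinearMap.ker (form j)

variable {ι κ ι' κ' : Type} [Fintype ι] [Fintype κ] [Fintype ι'] [Fintype κ']

/-- The complement of the union of the hyperplanes. -/
def Arrangement.compl (A : Arrangement ι κ) : Set (κ → ℝ) := {x | ∀ i, A.form i x ≠ 0}

/-- The chambers: the connected components of the complement. -/
abbrev Arrangement.Chamber (A : Arrangement ι κ) : Type := ConnectedComponents A.compl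

/-- The Varchenko-Gelfand algebra over `R`: all functions from the chambers to `R`, with pointwise
operations. -/
abbrev Arrangement.VG (A : Arrangement ι κ) (R : Type*) : Type _ := A.Chamber → R

open Classical in
/-- The Heaviside function `x_i^+`: it is `1` on the chambers on which `α_i > 0` and `0` on the
other chambers (on these `α_i < 0`). -/
noncomputable def Arrangement.heaviside (A : Arrangement ι κ) (R : Type*) [CommRing R] (i : ι) :
    A.VG R :=
  fun C => if ∀ x : A.compl, ConnectedComponents.mk x = C → 0 < A.form i (x : κ → ℝ) then 1 else 0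

/-- The degree filtration: `F^k` is the `R`-span of all products of at most `k` Heaviside
functions. -/
def Arrangement.filtration (A : Arrangement ι κ) (R : Type*) [CommRing R] (k : ℕ) :
    Submodule R (A.VG R) :=
  Submodule.span R {f | ∃ l : List ι, l.length ≤ k ∧ f = (l.map (A.heaviside R)).prod}

/-- The filtered Varchenko-Gelfand algebras of `A` and `B` over `R` are isomorphic: there is an
isomorphism of `R`-algebras `φ` with `φ(F^k) = F^k` for every `k`. -/
def FilteredIso (A : Arrangement ι κ) (B : Arrangement ι' κ') (R : Type*) [CommRing R] : Prop :=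
  ∃ φ : A.VG R ≃ₐ[R] B.VG R, ∀ k : ℕ,
    (A.filtration R k).map (φ : A.VG R →ₐ[R] B.VG R).toLinearMap = B.filtration R k

/-- The covectors of the oriented matroid of the arrangement: all sign vectors
`(sign α_i(x))_i`, for `x ∈ ℝ^κ`. -/
def Arrangement.covectors (A : Arrangement ι κ) : Set (ι → SignType) :=
  {X | ∃ x : κ → ℝ, ∀ i, X i = SignType.sign (A.form i x)}

/-- The oriented matroids of `A` and `B` are isomorphic: they agree after a bijection `σ` of the
ground sets and a reorientation (the element `i` changes its sign if `ε i = -1`). -/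
def OMIso (A : Arrangement ι κ) (B : Arrangement ι' κ') : Prop :=
  ∃ (σ : ι ≃ ι') (ε : ι' → SignType), (∀ i, ε i ≠ 0) ∧
    B.covectors = {Y | ∃ X ∈ A.covectors, ∀ i, Y i = ε i * X (σ.symm i)}

/-- The arrangement is generic in codimension `c`: any `c + 1` of its forms are linearly
independent. For `c = 2`: no three of the hyperplanes meet in a subspace of codimension two. -/
def GenericInCodim (A : Arrangement ι κ) (c : ℕ) : Prop :=
  ∀ s : Finset ι, s.card ≤ c + 1 → LinearIndependent ℝ (fun i : s => A.form i)

/-! ### Chambers and sign vectors -/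

open Classical in
/-- Sign pattern of a point. -/
noncomputable def pat (A : Arrangement ι κ) (x : κ → ℝ) : ι → Bool :=
  fun i => decide (0 < A.form i x)

theorem form_continuous (A : Arrangement ι κ) (i : ι) : Continuous (A.form i) :=
  LinearMap.continuous_of_finiteDimensional _

theorem pat_continuous (A : Arrangement ι κ) :
    Continuous (fun x : A.compl => pat A (x : κ → ℝ)) := by
  classical
  refine continuous_pi fun i => ?_
  have hc : Continuous fun x : A.compl => A.form i (x : κ → ℝ) :=
    (form_continuous A i).comp continuous_subtype_val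
  rw [continuous_discrete_rng]
  intro b
  cases b
  · have : ((fun x : A.compl => pat A (x : κ → ℝ) i) ⁻¹' {false})
        = {x : A.compl | A.form i (x : κ → ℝ) < 0} := by
      ext x
      simp only [pat, mem_preimage, mem_singleton_iff, decide_eq_false_iff_not, not_lt,
        Set.mem_ofPred_eq]
      exact ⟨fun h => lt_of_le_of_ne h (x.2 i), le_of_lt⟩
    rw [this]
    exact isOpen_lt hc continuous_const
  · have : ((fun x : A.compl => pat A (x : κ → ℝ) i) ⁻¹' {true})
        = {x : A.compl | 0 < A.form i (x : κ → ℝ)} := by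
      ext x
      simp [pat]
    rw [this]
    exact isOpen_lt continuous_const hc

theorem same_component (A : Arrangement ι κ) (x y : A.compl)
    (h : pat A (x : κ → ℝ) = pat A (y : κ → ℝ)) :
    (ConnectedComponents.mk x : A.Chamber) = ConnectedComponents.mk y := by
  classical
  let S : Set A.compl := {z | pat A (z : κ → ℝ) = pat A (x : κ → ℝ)}
  have hS : IsPreconnected S := by
    rw [← Topology.IsInducing.subtypeVal.isPreconnected_image]
    apply Convex.isPreconnected
    have himg : (Subtype.val '' S) = {z : κ → ℝ | ∀ i, if 0 < A.form i x then 0 < A.form i z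
        else A.form i z < 0} := by
      ext z
      constructor
      · rintro ⟨w, hw, rfl⟩ i
        have := congrFun hw i
        simp only [pat, decide_eq_decide] at this
        split_ifs with hi
        · exact this.2 hi
        · exact lt_of_le_of_ne (not_lt.1 fun h' => hi (this.1 h')) (w.2 i)
      · intro hz
        have hzc : z ∈ A.compl := by
          intro i
          have := hz i
          split_ifs at this
          · exact this.ne'
          · exact this.ne
        refine ⟨⟨z, hzc⟩, ?_, rfl⟩
        funext i
        have := hz i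
        simp only [pat, decide_eq_decide]
        split_ifs at this with hi
        · exact ⟨fun _ => hi, fun _ => this⟩
        · exact ⟨fun h' => absurd h' (not_lt.2 this.le), fun h' => absurd h' hi⟩
    rw [himg]
    intro z hz w hw a b ha hb hab i
    have h1 := hz i
    have h2 := hw i
    rw [map_add, map_smul, map_smul, smul_eq_mul, smul_eq_mul]
    split_ifs at h1 h2 ⊢ with hi
    · rcases ha.eq_or_lt with h0 | h0
      · have : b = 1 := by linarith
        subst h0; subst this; simpa using h2
      · have := mul_pos h0 h1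
        have := mul_nonneg hb h2.le
        linarith
    · rcases ha.eq_or_lt with h0 | h0
      · have : b = 1 := by linarith
        subst h0; subst this; simpa using h2
      · have := mul_neg_of_pos_of_neg h0 h1
        have := mul_nonpos_of_nonneg_of_nonpos hb h2.le
        linarith
  have hx : x ∈ S := rfl
  have hy : y ∈ S := h.symm
  rw [ConnectedComponents.coe_eq_coe']
  exact hS.subset_connectedComponent hy hx

/-- The sign pattern of a chamber. -/
noncomputable def cpat (A : Arrangement ι κ) : A.Chamber → (ι → Bool) :=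
  Continuous.connectedComponentsLift (pat_continuous A)

theorem cpat_mk (A : Arrangement ι κ) (x : A.compl) :
    cpat A (ConnectedComponents.mk x) = pat A (x : κ → ℝ) :=
  Continuous.connectedComponentsLift_apply_coe _ _

theorem cpat_injective (A : Arrangement ι κ) : Function.Injective (cpat A) := by
  intro C D h
  obtain ⟨x, rfl⟩ := ConnectedComponents.surjective_coe C
  obtain ⟨y, rfl⟩ := ConnectedComponents.surjective_coe D
  rw [cpat_mk, cpat_mk] at h
  exact same_component A x y h

theorem heaviside_eq (A : Arrangement ι κ) (R : Type*) [CommRing R] (i : ι) (C : A.Chamber) :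
    A.heaviside R i C = if cpat A C i then 1 else 0 := by
  classical
  unfold Arrangement.heaviside
  obtain ⟨x, rfl⟩ := ConnectedComponents.surjective_coe C
  by_cases h : cpat A (ConnectedComponents.mk x) i = true
  · rw [if_pos h, if_pos]
    intro y hy
    rw [← hy, cpat_mk] at h
    simpa [pat] using h
  · rw [if_neg h, if_neg]
    intro hall
    apply h
    rw [cpat_mk]
    simpa [pat] using hall x rfl

/-! ### The filtration -/

section Filtration

variable (A : Arrangement ι κ) (R : Type*) [CommRing R]

theorem filtration_mono {a b : ℕ} (h : a ≤ b) : A.filtration R a ≤ A.filtration R b := by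
  apply Submodule.span_mono
  rintro f ⟨l, hl, rfl⟩
  exact ⟨l, hl.trans h, rfl⟩

theorem one_mem (k : ℕ) : (1 : A.VG R) ∈ A.filtration R k :=
  Submodule.subset_span ⟨[], by simp, by simp⟩

theorem heaviside_mem (i : ι) : A.heaviside R i ∈ A.filtration R 1 :=
  Submodule.subset_span ⟨[i], by simp, by simp⟩

theorem mul_mem {a b : ℕ} {f g : A.VG R} (hf : f ∈ A.filtration R a)
    (hg : g ∈ A.filtration R b) : f * g ∈ A.filtration R (a + b) := by
  have h := Submodule.mul_mem_mul hf hg
  unfold Arrangement.filtration at h ⊢
  rw [Submodule.span_mul_span] at h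
  refine Submodule.span_mono ?_ h
  rintro _ ⟨u, ⟨l, hl, rfl⟩, v, ⟨m, hm, rfl⟩, rfl⟩
  refine ⟨l ++ m, by simp; omega, by simp⟩

theorem list_prod_mem (L : List (A.VG R)) (h : ∀ f ∈ L, f ∈ A.filtration R 1) :
    L.prod ∈ A.filtration R L.length := by
  induction L with
  | nil => simpa using one_mem A R 0
  | cons f L ih =>
    rw [List.prod_cons, List.length_cons, add_comm]
    exact mul_mem A R (h f (by simp)) (ih fun g hg => h g (by simp [hg]))

/-- Boolean functions of the chambers which lie in the first part of the filtration. -/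
def Aff (f : A.Chamber → Bool) : Prop :=
  (fun C => if f C then (1 : R) else 0) ∈ A.filtration R 1

theorem aff_cpat (i : ι) : Aff A R (fun C => cpat A C i) := by
  have h := heaviside_mem A R i
  have e : A.heaviside R i = fun C => if cpat A C i then (1 : R) else 0 := by
    funext C
    exact heaviside_eq A R i C
  rw [e] at h
  exact h

theorem aff_xor [CharP R 2] {f g : A.Chamber → Bool} (hf : Aff A R f) (hg : Aff A R g) :
    Aff A R (fun C => f C ^^ g C) := by
  have h := Submodule.add_mem _ hf hg
  unfold Aff
  convert h using 1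
  funext C
  have h2 : (1 : R) + 1 = 0 := by
    have := CharP.cast_eq_zero R 2
    push_cast at this
    rw [← this]; norm_num
  show (if (f C ^^ g C) then (1 : R) else 0)
    = (if f C then (1 : R) else 0) + (if g C then (1 : R) else 0)
  generalize f C = a
  generalize g C = b
  cases a <;> cases b <;> simp [h2]

end Filtration

/-- A bijection of the chambers which exchanges the two spaces `F^1` gives an isomorphism of
filtered algebras. -/
theorem filteredIso_of_equiv (A : Arrangement ι κ) (B : Arrangement ι' κ') (R : Type*)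
    [CommRing R] (e : A.Chamber ≃ B.Chamber)
    (h1 : ∀ j, (fun C => B.heaviside R j (e C)) ∈ A.filtration R 1)
    (h2 : ∀ i, (fun D => A.heaviside R i (e.symm D)) ∈ B.filtration R 1) :
    FilteredIso A B R := by
  let φ : A.VG R ≃ₐ[R] B.VG R :=
    { toFun := fun f D => f (e.symm D)
      invFun := fun g C => g (e C)
      left_inv := fun f => by funext C; simp
      right_inv := fun g => by funext D; simp
      map_mul' := fun f g => rfl
      map_add' := fun f g => rfl
      commutes' := fun r => rfl }
  refine ⟨φ, fun k => le_antisymm ?_ ?_⟩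
  · rw [Submodule.map_le_iff_le_comap]
    apply Submodule.span_le.2
    rintro f ⟨l, hl, rfl⟩
    show φ ((l.map (A.heaviside R)).prod) ∈ B.filtration R k
    rw [map_list_prod, List.map_map]
    refine filtration_mono B R ?_ (list_prod_mem B R _ ?_)
    · simpa using hl
    · intro f hf
      obtain ⟨i, -, rfl⟩ := List.mem_map.1 hf
      exact h2 i
  · apply Submodule.span_le.2
    rintro g ⟨l, hl, rfl⟩
    refine ⟨φ.symm ((l.map (B.heaviside R)).prod), ?_, ?_⟩
    · rw [map_list_prod, List.map_map]
      refine filtration_mono A R ?_ (list_prod_mem A R _ ?_)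
      · simpa using hl
      · intro f hf
        obtain ⟨i, -, rfl⟩ := List.mem_map.1 hf
        exact h1 i
    · exact φ.apply_symm_apply _

/-- A bijection of the sign patterns which is affine over `F_2` gives an isomorphism of filtered
algebras in characteristic two. -/
theorem filteredIso_of_pat (A : Arrangement ι κ) (B : Arrangement ι' κ')
    (g : (ι → Bool) → (ι' → Bool)) (g' : (ι' → Bool) → (ι → Bool))
    (hg : ∀ t, g' (g t) = t) (hg' : ∀ u, g (g' u) = u)
    (h1 : ∀ x : A.compl, ∃ y : B.compl, pat B (y : κ' → ℝ) = g (pat A (x : κ → ℝ)))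
    (h2 : ∀ y : B.compl, ∃ x : A.compl, pat A (x : κ → ℝ) = g' (pat B (y : κ' → ℝ)))
    (R : Type*) [CommRing R]
    (a1 : ∀ j, Aff A R (fun C => g (cpat A C) j)) (a2 : ∀ i, Aff B R (fun D => g' (cpat B D) i)) :
    FilteredIso A B R := by
  have k1 : ∀ C : A.Chamber, ∃ D : B.Chamber, cpat B D = g (cpat A C) := by
    intro C
    obtain ⟨x, rfl⟩ := ConnectedComponents.surjective_coe C
    obtain ⟨y, hy⟩ := h1 x
    exact ⟨ConnectedComponents.mk y, by rw [cpat_mk, cpat_mk, hy]⟩
  have k2 : ∀ D : B.Chamber, ∃ C : A.Chamber, cpat A C = g' (cpat B D) := by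
    intro D
    obtain ⟨y, rfl⟩ := ConnectedComponents.surjective_coe D
    obtain ⟨x, hx⟩ := h2 y
    exact ⟨ConnectedComponents.mk x, by rw [cpat_mk, cpat_mk, hx]⟩
  choose F hF using k1
  choose G hG using k2
  let e : A.Chamber ≃ B.Chamber :=
    { toFun := F
      invFun := G
      left_inv := fun C => cpat_injective A (by rw [hG, hF, hg])
      right_inv := fun D => cpat_injective B (by rw [hF, hG, hg']) }
  apply filteredIso_of_equiv A B R e
  · intro j
    have : (fun C => B.heaviside R j (e C)) = fun C => if g (cpat A C) j then (1 : R) else 0 := by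
      funext C
      rw [heaviside_eq]
      show (if cpat B (F C) j then (1 : R) else 0) = _
      rw [hF]
    rw [this]
    exact a1 j
  · intro i
    have : (fun D => A.heaviside R i (e.symm D)) =
        fun D => if g' (cpat B D) i then (1 : R) else 0 := by
      funext D
      rw [heaviside_eq]
      show (if cpat A (G D) i then (1 : R) else 0) = _
      rw [hG]
    rw [this]
    exact a2 i

/-! ### Arrangements from an independence property -/

/-- Every linear relation between the forms which involves at most `N` of them is trivial. -/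
def Key (form : ι → ((κ → ℝ) →ₗ[ℝ] ℝ)) (N : ℕ) : Prop :=
  ∀ c : ι → ℝ, ∑ i, c i • form i = 0 → ∀ s : Finset ι, (∀ i, c i ≠ 0 → i ∈ s) → s.card ≤ N →
    c = 0

open Classical in
theorem key_ne_zero {form : ι → ((κ → ℝ) →ₗ[ℝ] ℝ)} {N : ℕ} (hN : 2 ≤ N) (key : Key form N)
    (i : ι) : form i ≠ 0 := by
  intro h
  have := key (Pi.single i 1) (by simp [Pi.single_apply, ite_smul, h]) {i}
    (by intro l hl; by_contra hc; exact hl (by simp at hc; simp [hc]))
    (by simp; omega)
  have := congrFun this i
  simp at this

open Classical in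
theorem key_ker_ne {form : ι → ((κ → ℝ) →ₗ[ℝ] ℝ)} {N : ℕ} (hN : 2 ≤ N) (key : Key form N)
    (i j : ι) (hij : i ≠ j) : LinearMap.ker (form i) ≠ LinearMap.ker (form j) := by
  intro hker
  obtain ⟨x, hx⟩ : ∃ x, form i x ≠ 0 := by
    by_contra hc
    push Not at hc
    exact key_ne_zero hN key i (LinearMap.ext hc)
  set r : ℝ := form j x / form i x with hr
  have hrel : form j = r • form i := by
    refine LinearMap.ext fun y => ?_
    have hy : y - (form i y / form i x) • x ∈ LinearMap.ker (form i) := by
      rw [LinearMap.mem_ker, map_sub, map_smul, smul_eq_mul]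
      field_simp
      ring
    rw [hker, LinearMap.mem_ker, map_sub, map_smul, smul_eq_mul] at hy
    rw [LinearMap.smul_apply, smul_eq_mul, hr]
    field_simp
    field_simp at hy
    linarith
  have := key (Pi.single j 1 + Pi.single i (-r)) (by
      simp only [Pi.add_apply, add_smul, Finset.sum_add_distrib, Pi.single_apply, ite_smul,
        zero_smul, Finset.sum_ite_eq', Finset.mem_univ, if_true, one_smul]
      rw [hrel]; simp) {i, j}
    (by
      intro l hl
      by_contra hc
      simp only [Finset.mem_insert, Finset.mem_singleton, not_or] at hc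
      exact hl (by simp [hc.1, hc.2]))
    ((Finset.card_le_two).trans hN)
  have := congrFun this j
  simp [hij.symm] at this

/-- An arrangement from a family of forms any two of which are linearly independent. -/
def mkArr (form : ι → ((κ → ℝ) →ₗ[ℝ] ℝ)) {N : ℕ} (hN : 2 ≤ N) (key : Key form N) :
    Arrangement ι κ where
  form := form
  form_ne_zero := key_ne_zero hN key
  ker_ne := key_ker_ne hN key

open Classical in
theorem li_of_key {form : ι → ((κ → ℝ) →ₗ[ℝ] ℝ)} {N : ℕ} (key : Key form N)
    (s : Finset ι) (hs : s.card ≤ N) : LinearIndependent ℝ (fun i : s => form i) := by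
  rw [Fintype.linearIndependent_iff]
  intro g hg i
  have h1 := key (fun l => if h : l ∈ s then g ⟨l, h⟩ else 0) (by
    rw [← hg, ← Finset.sum_subset (Finset.subset_univ s)]
    · rw [← Finset.sum_coe_sort s]
      apply Finset.sum_congr rfl
      intro l _
      rw [dif_pos l.2]
    · intro l _ hl
      rw [dif_neg hl, zero_smul]) s
    (by
      intro l hl
      by_contra hc
      exact hl (dif_neg hc)) hs
  have h2 := congrFun h1 i
  simpa using h2

/-! ### The two families -/

/-- The coordinates `x_i` (left) and `y_i` (right). -/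
abbrev Crd (m : ℕ) : Type := Fin (m + 2) ⊕ Fin (m + 2)

/-- The index set of the hyperplanes: all coordinates and two further elements. -/
abbrev Idx (m : ℕ) : Type := Crd m ⊕ Bool

variable (m : ℕ)

/-- The coordinate functions. -/
def co (p : Crd m) : (Crd m → ℝ) →ₗ[ℝ] ℝ := LinearMap.proj p

/-- The sum of all `x_i`. -/
def sumX : (Crd m → ℝ) →ₗ[ℝ] ℝ := ∑ i, co m (Sum.inl i)

/-- The sum of all `y_i`. -/
def sumY : (Crd m → ℝ) →ₗ[ℝ] ℝ := ∑ i, co m (Sum.inr i)

/-- The forms of the first arrangement: the coordinates, `∑ x_i` and `∑ y_i`. -/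
def formA : Idx m → ((Crd m → ℝ) →ₗ[ℝ] ℝ)
  | Sum.inl p => co m p
  | Sum.inr false => sumX m
  | Sum.inr true => sumY m

/-- The forms of the second arrangement: the coordinates, `∑ x_i` and `x_0 + ∑_{i ≠ 0} y_i`. -/
def formB : Idx m → ((Crd m → ℝ) →ₗ[ℝ] ℝ)
  | Sum.inl p => co m p
  | Sum.inr false => sumX m
  | Sum.inr true => co m (Sum.inl 0) + (sumY m - co m (Sum.inr 0))

theorem co_apply (p : Crd m) (x : Crd m → ℝ) : co m p x = x p := rfl

theorem sumX_apply (x : Crd m → ℝ) : sumX m x = ∑ i, x (Sum.inl i) := by
  simp [sumX, co_apply]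

theorem sumY_apply (x : Crd m → ℝ) : sumY m x = ∑ i, x (Sum.inr i) := by
  simp [sumY, co_apply]

theorem sum_form (form : Idx m → ((Crd m → ℝ) →ₗ[ℝ] ℝ)) (hf : ∀ p, form (Sum.inl p) = co m p)
    (c : Idx m → ℝ) (h : ∑ i, c i • form i = 0) (p : Crd m) :
    c (Sum.inl p) + (c (Sum.inr true) * form (Sum.inr true) (Pi.single p 1) +
      c (Sum.inr false) * form (Sum.inr false) (Pi.single p 1)) = 0 := by
  have h1 := congrArg (fun L : (Crd m → ℝ) →ₗ[ℝ] ℝ => L (Pi.single p 1)) h
  simp only [Fintype.sum_sum_type (α₁ := Crd m) (α₂ := Bool), Fintype.sum_bool,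
    LinearMap.add_apply, LinearMap.smul_apply, smul_eq_mul, LinearMap.zero_apply,
    LinearMap.sum_apply, hf, co_apply] at h1
  rw [Finset.sum_eq_single p] at h1
  · simpa using h1
  · intro q _ hq
    simp [hq]
  · intro hp
    exact absurd (Finset.mem_univ p) hp

theorem sumX_l (j : Fin (m + 2)) : sumX m (Pi.single (Sum.inl j) 1) = 1 := by
  rw [sumX_apply]; simp [Pi.single_apply]

theorem sumX_r (j : Fin (m + 2)) : sumX m (Pi.single (Sum.inr j) 1) = 0 := by
  rw [sumX_apply]; simp

theorem sumY_l (j : Fin (m + 2)) : sumY m (Pi.single (Sum.inl j) 1) = 0 := by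
  rw [sumY_apply]; simp

theorem sumY_r (j : Fin (m + 2)) : sumY m (Pi.single (Sum.inr j) 1) = 1 := by
  rw [sumY_apply]; simp [Pi.single_apply]

theorem card_absurd (f : Option (Fin (m + 2)) → Idx m) (hf : Function.Injective f)
    (c : Idx m → ℝ) (hc : ∀ o, c (f o) ≠ 0) (s : Finset (Idx m)) (hs : ∀ i, c i ≠ 0 → i ∈ s)
    (hcard : s.card ≤ m + 2) : False := by
  have h1 : (Finset.univ.image f).card = m + 3 := by
    rw [Finset.card_image_of_injective _ hf]; simp
  have h2 : Finset.univ.image f ⊆ s := by
    intro i hi
    obtain ⟨o, -, rfl⟩ := Finset.mem_image.1 hi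
    exact hs _ (hc o)
  have := Finset.card_le_card h2
  omega

theorem keyA : Key (formA m) (m + 2) := by
  intro c h s hs hcard
  have H := sum_form m (formA m) (fun _ => rfl) c h
  have hx : ∀ j, c (Sum.inl (Sum.inl j)) + c (Sum.inr false) = 0 := by
    intro j
    have := H (Sum.inl j)
    simp only [formA, sumX_l, sumY_l] at this
    linarith
  have hy : ∀ j, c (Sum.inl (Sum.inr j)) + c (Sum.inr true) = 0 := by
    intro j
    have := H (Sum.inr j)
    simp only [formA, sumX_r, sumY_r] at this
    linarith
  have p0 : c (Sum.inr false) = 0 := by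
    by_contra hp
    refine card_absurd m (fun o => match o with
      | none => Sum.inr false
      | some j => Sum.inl (Sum.inl j)) ?_ c ?_ s hs hcard
    · rintro (_ | a) (_ | b) hab <;> simp_all
    · rintro (_ | j)
      · exact hp
      · intro h0
        have h0' : c (Sum.inl (Sum.inl j)) = 0 := h0
        have := hx j
        exact hp (by linarith)
  have q0 : c (Sum.inr true) = 0 := by
    by_contra hp
    refine card_absurd m (fun o => match o with
      | none => Sum.inr true
      | some j => Sum.inl (Sum.inr j)) ?_ c ?_ s hs hcard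
    · rintro (_ | a) (_ | b) hab <;> simp_all
    · rintro (_ | j)
      · exact hp
      · intro h0
        have h0' : c (Sum.inl (Sum.inr j)) = 0 := h0
        have := hy j
        exact hp (by linarith)
  funext i
  rcases i with (j | j) | (_ | _)
  · have := hx j; rw [p0] at this; simpa using this
  · have := hy j; rw [q0] at this; simpa using this
  · exact p0
  · exact q0

theorem keyB : Key (formB m) (m + 2) := by
  intro c h s hs hcard
  have H := sum_form m (formB m) (fun _ => rfl) c h
  have hx : ∀ j, c (Sum.inl (Sum.inl j)) + c (Sum.inr false) +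
      (if j = 0 then c (Sum.inr true) else 0) = 0 := by
    intro j
    have := H (Sum.inl j)
    simp only [formB, LinearMap.add_apply, LinearMap.sub_apply, sumX_l, sumY_l, co_apply] at this
    by_cases hj : j = 0
    · subst hj
      simp at this ⊢
      linarith
    · simp [hj, Ne.symm hj] at this ⊢
      linarith
  have hy : ∀ j, c (Sum.inl (Sum.inr j)) + (if j = 0 then 0 else c (Sum.inr true)) = 0 := by
    intro j
    have := H (Sum.inr j)
    simp only [formB, LinearMap.add_apply, LinearMap.sub_apply, sumX_r, sumY_r, co_apply] at this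
    by_cases hj : j = 0
    · subst hj
      simp at this ⊢
      linarith
    · simp [hj, Ne.symm hj] at this ⊢
      linarith
  have q0 : c (Sum.inr true) = 0 := by
    by_contra hq
    have hq' : ∀ j : Fin (m + 2), j ≠ 0 → c (Sum.inl (Sum.inr j)) ≠ 0 := by
      intro j hj h0
      have := hy j
      rw [if_neg hj, h0] at this
      exact hq (by linarith)
    by_cases hp : c (Sum.inr false) = 0
    · refine card_absurd m (fun o => match o with
        | none => Sum.inl (Sum.inl 0)
        | some j => if j = 0 then Sum.inr true else Sum.inl (Sum.inr j)) ?_ c ?_ s hs hcard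
      · rintro (_ | a) (_ | b) hab
        · rfl
        · by_cases hb : b = 0 <;> simp [hb] at hab
        · by_cases ha : a = 0 <;> simp [ha] at hab
        · by_cases ha : a = 0 <;> by_cases hb : b = 0 <;> simp [ha, hb] at hab ⊢
          exact hab
      · rintro (_ | j)
        · intro h0
          have h0' : c (Sum.inl (Sum.inl 0)) = 0 := h0
          have := hx 0
          rw [if_pos rfl, h0', hp] at this
          exact hq (by linarith)
        · by_cases hj : j = 0
          · simpa [hj] using hq
          · simpa [hj] using hq' j hj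
    · refine card_absurd m (fun o => match o with
        | none => Sum.inr false
        | some j => if j = 0 then Sum.inr true else Sum.inl (Sum.inr j)) ?_ c ?_ s hs hcard
      · rintro (_ | a) (_ | b) hab
        · rfl
        · by_cases hb : b = 0 <;> simp [hb] at hab
        · by_cases ha : a = 0 <;> simp [ha] at hab
        · by_cases ha : a = 0 <;> by_cases hb : b = 0 <;> simp [ha, hb] at hab ⊢
          exact hab
      · rintro (_ | j)
        · exact hp
        · by_cases hj : j = 0
          · simpa [hj] using hq
          · simpa [hj] using hq' j hj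
  have p0 : c (Sum.inr false) = 0 := by
    by_contra hp
    refine card_absurd m (fun o => match o with
      | none => Sum.inr false
      | some j => Sum.inl (Sum.inl j)) ?_ c ?_ s hs hcard
    · rintro (_ | a) (_ | b) hab <;> simp_all
    · rintro (_ | j)
      · exact hp
      · intro h0
        have h0' : c (Sum.inl (Sum.inl j)) = 0 := h0
        have := hx j
        rw [q0, h0', ite_self] at this
        exact hp (by linarith)
  funext i
  rcases i with (j | j) | (_ | _)
  · have := hx j; rw [p0, q0, ite_self] at this; simpa using this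
  · have := hy j; rw [q0, ite_self] at this; simpa using this
  · exact p0
  · exact q0

/-- The first arrangement. -/
def arrA : Arrangement (Idx m) (Crd m) := mkArr (formA m) (N := m + 2) (by omega) (keyA m)

/-- The second arrangement. -/
def arrB : Arrangement (Idx m) (Crd m) := mkArr (formB m) (N := m + 2) (by omega) (keyB m)

theorem genericA : GenericInCodim (arrA m) (m + 1) := fun s hs => li_of_key (keyA m) s hs

theorem genericB : GenericInCodim (arrB m) (m + 1) := fun s hs => li_of_key (keyB m) s hs

/-! ### The bijection of the sign patterns -/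

theorem dec_mul {a b : ℝ} (ha : a ≠ 0) (hb : b ≠ 0) :
    decide (0 < a * b) = !(decide (0 < a) ^^ decide (0 < b)) := by
  rcases lt_or_gt_of_ne ha with h1 | h1 <;> rcases lt_or_gt_of_ne hb with h2 | h2
  · have := mul_pos_of_neg_of_neg h1 h2
    simp [this, not_lt.2 h1.le, not_lt.2 h2.le]
  · have := mul_neg_of_neg_of_pos h1 h2
    simp [not_lt.2 this.le, not_lt.2 h1.le, h2]
  · have := mul_neg_of_pos_of_neg h1 h2
    simp [not_lt.2 this.le, h1, not_lt.2 h2.le]
  · have := mul_pos h1 h2
    simp [this, h1, h2]

theorem dec_inv (a : ℝ) : decide (0 < a⁻¹) = decide (0 < a) := by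
  simp [inv_pos]

theorem dec3 {a b c : ℝ} (ha : a ≠ 0) (hb : b ≠ 0) (hc : c ≠ 0) :
    decide (0 < a / b * c) = ((decide (0 < c) ^^ decide (0 < a)) ^^ decide (0 < b)) := by
  rw [div_eq_mul_inv, dec_mul (mul_ne_zero ha (inv_ne_zero hb)) hc, dec_mul ha (inv_ne_zero hb),
    dec_inv]
  generalize decide (0 < a) = u
  generalize decide (0 < b) = v
  generalize decide (0 < c) = w
  cases u <;> cases v <;> cases w <;> rfl

/-- The affine map over `F_2` between the sign patterns. -/
def gm (t : Idx m → Bool) : Idx m → Bool
  | Sum.inl (Sum.inl i) => t (Sum.inl (Sum.inl i))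
  | Sum.inl (Sum.inr i) => if i = 0 then t (Sum.inl (Sum.inr 0)) else
      (t (Sum.inl (Sum.inr i)) ^^ t (Sum.inl (Sum.inl 0))) ^^ t (Sum.inl (Sum.inr 0))
  | Sum.inr false => t (Sum.inr false)
  | Sum.inr true => (t (Sum.inr true) ^^ t (Sum.inl (Sum.inl 0))) ^^ t (Sum.inl (Sum.inr 0))

theorem gm_gm (t : Idx m → Bool) : gm m (gm m t) = t := by
  funext i
  rcases i with (j | j) | (_ | _)
  · rfl
  · by_cases hj : j = 0
    · subst hj; simp [gm]
    · simp only [gm, if_neg hj, if_true]
      generalize t (Sum.inl (Sum.inr j)) = u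
      generalize t (Sum.inl (Sum.inr 0)) = v
      generalize t (Sum.inl (Sum.inl 0)) = w
      cases u <;> cases v <;> cases w <;> rfl
  · rfl
  · simp only [gm, if_true]
    generalize t (Sum.inr true) = u
    generalize t (Sum.inl (Sum.inr 0)) = v
    generalize t (Sum.inl (Sum.inl 0)) = w
    cases u <;> cases v <;> cases w <;> rfl

/-- Multiply all `y_i` with `i ≠ 0` by `r`. -/
def phi (r : ℝ) (x : Crd m → ℝ) : Crd m → ℝ
  | Sum.inl i => x (Sum.inl i)
  | Sum.inr i => if i = 0 then x (Sum.inr 0) else r * x (Sum.inr i)

theorem sumX_phi (r : ℝ) (x : Crd m → ℝ) : sumX m (phi m r x) = sumX m x := by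
  rw [sumX_apply, sumX_apply]; rfl

theorem sumY_phi (r : ℝ) (x : Crd m → ℝ) :
    sumY m (phi m r x) = x (Sum.inr 0) + r * (sumY m x - x (Sum.inr 0)) := by
  have e1 : ∑ i : Fin (m + 2), phi m r x (Sum.inr i) =
      phi m r x (Sum.inr 0) + ∑ i : Fin (m + 1), phi m r x (Sum.inr i.succ) :=
    Fin.sum_univ_succ _
  have e2 : ∑ i : Fin (m + 2), x (Sum.inr i) =
      x (Sum.inr 0) + ∑ i : Fin (m + 1), x (Sum.inr i.succ) := Fin.sum_univ_succ _
  rw [sumY_apply, sumY_apply, e1, e2]
  simp only [phi, if_true, Fin.succ_ne_zero, if_false]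
  rw [← Finset.mul_sum]
  ring

theorem map_AB (x : (arrA m).compl) :
    ∃ y : (arrB m).compl, pat (arrB m) (y : Crd m → ℝ) = gm m (pat (arrA m) (x : Crd m → ℝ)) := by
  obtain ⟨x, hx⟩ := x
  have c : ∀ p, x p ≠ 0 := fun p => hx (Sum.inl p)
  have hX : sumX m x ≠ 0 := hx (Sum.inr false)
  have hY : sumY m x ≠ 0 := hx (Sum.inr true)
  set r : ℝ := x (Sum.inl 0) / x (Sum.inr 0) with hr
  have hr0 : r ≠ 0 := div_ne_zero (c _) (c _)
  have hlast : (formB m (Sum.inr true)) (phi m r x) = r * sumY m x := by
    show phi m r x (Sum.inl 0) + (sumY m (phi m r x) - phi m r x (Sum.inr 0)) = _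
    rw [sumY_phi]
    simp only [phi, if_true]
    have : r * x (Sum.inr 0) = x (Sum.inl 0) := by rw [hr]; exact div_mul_cancel₀ _ (c _)
    linear_combination (-1 : ℝ) * this
  have hy : phi m r x ∈ (arrB m).compl := by
    intro i
    rcases i with (j | j) | (_ | _)
    · exact c _
    · show (if j = 0 then x (Sum.inr 0) else r * x (Sum.inr j)) ≠ 0
      split_ifs
      · exact c _
      · exact mul_ne_zero hr0 (c _)
    · show sumX m (phi m r x) ≠ 0
      rw [sumX_phi]; exact hX
    · show (formB m (Sum.inr true)) (phi m r x) ≠ 0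
      rw [hlast]; exact mul_ne_zero hr0 hY
  refine ⟨⟨phi m r x, hy⟩, ?_⟩
  classical
  funext i
  rcases i with (j | j) | (_ | _)
  · show decide (0 < x (Sum.inl j)) = gm m (pat (arrA m) x) (Sum.inl (Sum.inl j))
    simp only [gm, pat]
    congr
  · show decide (0 < (if j = 0 then x (Sum.inr 0) else r * x (Sum.inr j))) =
      (if j = 0 then decide (0 < x (Sum.inr 0)) else
      (decide (0 < x (Sum.inr j)) ^^ decide (0 < x (Sum.inl 0))) ^^ decide (0 < x (Sum.inr 0)))
    by_cases hj : j = 0
    · rw [if_pos hj, if_pos hj]
    · rw [if_neg hj, if_neg hj, hr, dec3 (c _) (c _) (c _)]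
  · show decide (0 < sumX m (phi m r x)) = decide (0 < sumX m x)
    rw [sumX_phi]
  · show decide (0 < (formB m (Sum.inr true)) (phi m r x)) =
      ((decide (0 < sumY m x) ^^ decide (0 < x (Sum.inl 0))) ^^ decide (0 < x (Sum.inr 0)))
    rw [hlast, hr, dec3 (c _) (c _) hY]

theorem map_BA (y : (arrB m).compl) :
    ∃ x : (arrA m).compl, pat (arrA m) (x : Crd m → ℝ) = gm m (pat (arrB m) (y : Crd m → ℝ)) := by
  obtain ⟨x, hx⟩ := y
  have c : ∀ p, x p ≠ 0 := fun p => hx (Sum.inl p)
  have hX : sumX m x ≠ 0 := hx (Sum.inr false)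
  have hY : formB m (Sum.inr true) x ≠ 0 := hx (Sum.inr true)
  set r : ℝ := x (Sum.inr 0) / x (Sum.inl 0) with hr
  have hr0 : r ≠ 0 := div_ne_zero (c _) (c _)
  have hlast : sumY m (phi m r x) = r * formB m (Sum.inr true) x := by
    show _ = r * (x (Sum.inl 0) + (sumY m x - x (Sum.inr 0)))
    rw [sumY_phi]
    have : r * x (Sum.inl 0) = x (Sum.inr 0) := by rw [hr]; exact div_mul_cancel₀ _ (c _)
    linear_combination (-1 : ℝ) * this
  have hy : phi m r x ∈ (arrA m).compl := by
    intro i
    rcases i with (j | j) | (_ | _)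
    · exact c _
    · show (if j = 0 then x (Sum.inr 0) else r * x (Sum.inr j)) ≠ 0
      split_ifs
      · exact c _
      · exact mul_ne_zero hr0 (c _)
    · show sumX m (phi m r x) ≠ 0
      rw [sumX_phi]; exact hX
    · show sumY m (phi m r x) ≠ 0
      rw [hlast]; exact mul_ne_zero hr0 hY
  have hsw : ∀ u v w : Bool, ((u ^^ v) ^^ w) = ((u ^^ w) ^^ v) := by decide
  refine ⟨⟨phi m r x, hy⟩, ?_⟩
  classical
  funext i
  rcases i with (j | j) | (_ | _)
  · show decide (0 < x (Sum.inl j)) = gm m (pat (arrB m) x) (Sum.inl (Sum.inl j))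
    simp only [gm, pat]
    congr
  · show decide (0 < (if j = 0 then x (Sum.inr 0) else r * x (Sum.inr j))) =
      (if j = 0 then decide (0 < x (Sum.inr 0)) else
      (decide (0 < x (Sum.inr j)) ^^ decide (0 < x (Sum.inl 0))) ^^ decide (0 < x (Sum.inr 0)))
    by_cases hj : j = 0
    · rw [if_pos hj, if_pos hj]
    · rw [if_neg hj, if_neg hj, hr, dec3 (c _) (c _) (c _), hsw]
  · show decide (0 < sumX m (phi m r x)) = decide (0 < sumX m x)
    rw [sumX_phi]
  · show decide (0 < sumY m (phi m r x)) =
      ((decide (0 < formB m (Sum.inr true) x) ^^ decide (0 < x (Sum.inl 0))) ^^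
        decide (0 < x (Sum.inr 0)))
    rw [hlast, hr, dec3 (c _) (c _) hY, hsw]

theorem aff_gm (A : Arrangement (Idx m) (Crd m)) (R : Type*) [CommRing R] [CharP R 2] (i : Idx m) :
    Aff A R (fun C => gm m (cpat A C) i) := by
  have h := aff_cpat A R
  rcases i with (j | j) | (_ | _)
  · exact h _
  · by_cases hj : j = 0
    · simp only [gm, if_pos hj]
      exact h _
    · simp only [gm, if_neg hj]
      exact aff_xor A R (aff_xor A R (h _) (h _)) (h _)
  · exact h _
  · exact aff_xor A R (aff_xor A R (h _) (h _)) (h _)

theorem filteredIso (R : Type*) [CommRing R] [CharP R 2] : FilteredIso (arrA m) (arrB m) R :=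
  filteredIso_of_pat (arrA m) (arrB m) (gm m) (gm m) (gm_gm m) (gm_gm m) (map_AB m) (map_BA m) R
    (aff_gm m (arrA m) R) (aff_gm m (arrB m) R)

/-! ### The oriented matroids -/

/-- The element `i` is a coloop: some covector vanishes exactly outside `i`. -/
def IsColoop (A : Arrangement ι κ) (i : ι) : Prop :=
  ∃ X ∈ A.covectors, X i ≠ 0 ∧ ∀ j, j ≠ i → X j = 0

theorem coloop_of_OMIso (A : Arrangement ι κ) (B : Arrangement ι' κ') (h : OMIso A B) (i : ι')
    (hi : IsColoop B i) : ∃ i', IsColoop A i' := by
  obtain ⟨σ, ε, hε, h⟩ := h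
  obtain ⟨Y, hY, h1, h2⟩ := hi
  rw [h] at hY
  obtain ⟨X, hX, hXY⟩ := hY
  refine ⟨σ.symm i, X, hX, ?_, ?_⟩
  · intro h0
    apply h1
    rw [hXY, h0, mul_zero]
  · intro j hj
    have : σ j ≠ i := by
      intro hc
      exact hj (by rw [← hc, Equiv.symm_apply_apply])
    have := h2 _ this
    rw [hXY, Equiv.symm_apply_apply, mul_eq_zero] at this
    exact this.resolve_left (hε _)

theorem coloopB : IsColoop (arrB m) (Sum.inl (Sum.inr 0)) := by
  refine ⟨fun i => SignType.sign ((arrB m).form i (Pi.single (Sum.inr 0) 1)),
    ⟨_, fun _ => rfl⟩, ?_, ?_⟩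
  · show SignType.sign ((Pi.single (Sum.inr 0) 1 : Crd m → ℝ) (Sum.inr 0)) ≠ 0
    simp
  · intro j hj
    show SignType.sign ((arrB m).form j (Pi.single (Sum.inr 0) 1)) = 0
    rw [sign_eq_zero_iff]
    rcases j with (j | j) | (_ | _)
    · show (Pi.single (Sum.inr 0) 1 : Crd m → ℝ) (Sum.inl j) = 0
      simp
    · show (Pi.single (Sum.inr 0) 1 : Crd m → ℝ) (Sum.inr j) = 0
      have : j ≠ 0 := by
        rintro rfl
        exact hj rfl
      simp [this]
    · exact sumX_r m 0
    · show (Pi.single (Sum.inr 0) 1 : Crd m → ℝ) (Sum.inl 0) + (sumY m (Pi.single (Sum.inr 0) 1) -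
        (Pi.single (Sum.inr 0) 1 : Crd m → ℝ) (Sum.inr 0)) = 0
      rw [sumY_r]
      simp

theorem not_coloopA (i : Idx m) : ¬ IsColoop (arrA m) i := by
  rintro ⟨X, ⟨x, hx⟩, h1, h2⟩
  have h1' : (arrA m).form i x ≠ 0 := by
    intro h0
    exact h1 (by rw [hx, h0]; simp)
  have h2' : ∀ j, j ≠ i → (arrA m).form j x = 0 := by
    intro j hj
    have := h2 j hj
    rwa [hx, sign_eq_zero_iff] at this
  rcases i with (j | j) | (_ | _)
  · have h3 : sumX m x = 0 := h2' (Sum.inr false) (by simp)
    rw [sumX_apply, Finset.sum_eq_single j] at h3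
    · exact h1' h3
    · intro l _ hl
      exact h2' (Sum.inl (Sum.inl l)) (by simpa using hl)
    · intro hc
      exact absurd (Finset.mem_univ j) hc
  · have h3 : sumY m x = 0 := h2' (Sum.inr true) (by simp)
    rw [sumY_apply, Finset.sum_eq_single j] at h3
    · exact h1' h3
    · intro l _ hl
      exact h2' (Sum.inl (Sum.inr l)) (by simpa using hl)
    · intro hc
      exact absurd (Finset.mem_univ j) hc
  · apply h1'
    show sumX m x = 0
    rw [sumX_apply]
    exact Finset.sum_eq_zero fun l _ => h2' (Sum.inl (Sum.inl l)) (by simp)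
  · apply h1'
    show sumY m x = 0
    rw [sumY_apply]
    exact Finset.sum_eq_zero fun l _ => h2' (Sum.inl (Sum.inr l)) (by simp)

theorem not_OMIso : ¬ OMIso (arrA m) (arrB m) := by
  intro h
  obtain ⟨i, hi⟩ := coloop_of_OMIso _ _ h _ (coloopB m)
  exact not_coloopA m i hi

/-- For every `m` there are two real central arrangements of `2m + 6` hyperplanes in `ℝ^(2m+4)`,
both generic in codimension `m + 1` (any `m + 2` of the forms are linearly independent), whose
oriented matroids are not isomorphic, although for every commutative ring `R` of characteristic two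
(in particular for every integral domain of characteristic two) their filtered Varchenko-Gelfand
algebras over `R` are isomorphic. -/
theorem result (m : ℕ) :
    ∃ A B : Arrangement ((Fin (m + 2) ⊕ Fin (m + 2)) ⊕ Bool) (Fin (m + 2) ⊕ Fin (m + 2)),
      GenericInCodim A (m + 1) ∧ GenericInCodim B (m + 1) ∧ ¬ OMIso A B ∧
      ∀ (R : Type*) [CommRing R] [CharP R 2], FilteredIso A B R :=
  ⟨arrA m, arrB m, genericA m, genericB m, not_OMIso m, fun R _ _ => filteredIso m R⟩

end Pool.Agent.Results.MP_157dc7_co.CharTwoGeneric
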